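import Pool.Agent.Helper63.LF.Dom
import Pool.Agent.Helper82.BA.Coding

/-! LF-2: the names of the functions of a dominating scale form a `WScale`. -/

set_option autoImplicit false

namespace Pool.Agent.Helper50.LF

open Pool.Agent.Helper33.HM Pool.Agent.Helper94.BA
open Pool.Agent.Helper32.FR (wt nd PN okV avV lsV valV incV accS accV piV Scale Bdg)

variable {B : Type 1} [CompleteBooleanAlgebra B] {c : Ordinal.{0} → ℕ → B}

theorem scaleF (hccc : CCC B) (hb : Bdg B) (hc : Scale c) :
    WScale (fun _ : Ordinal.{0} => (⊤ : B)) (fun β => decV (c β)) where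
  wf := inferInstance
  small := fun j => inferInstance
  fn := fun j => decV_isFn (c j)
  inc := fun j m k => by
    have h := hc.inc j
    unfold incV at h
    have h1 := (iInf_eq_top.1 h) m
    have h2 := (iInf_eq_top.1 h1) k
    exact himp_eq_top_iff.1 h2
  le := fun j j' hj => by
    have h := hc.mono j j' hj
    unfold lsV at h
    rw [h]
    exact le_top
  nle := fun j j' hj => by
    have h := hc.strict j j' hj
    unfold lsV at h
    rw [h, inf_bot_eq]
  dom := fun ι φ hφ => by
    obtain ⟨γ, -, hγ⟩ := exists_dom hccc hb hc 0 ι φ hφ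
    exact ⟨γ, rfl, hγ⟩
  root := fun j n => by
    obtain ⟨γ, hγ, h⟩ := hc.root j n
    refine top_unique (le_iSup_of_le γ (le_iSup_of_le hγ ?_))
    rw [h, compl_bot, inf_top_eq]

end Pool.Agent.Helper50.LF
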